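import Pool.Agent.H37Z.PO.Real

/-!
# MP_28724c_co: Ramsey colourings whose red graph is a union of few comparability graphs

A red/blue colouring of the edges of `K_n` is encoded by the graph `G` of its red edges. We measure
its complexity by the least number `t` of partial orders such that two vertices are joined by a
red edge exactly when they are comparable in one of the orders. Every graph on at most `2 ^ t`
vertices is the union of `t` comparability graphs, so the model with `t = 2 k` contains all
colourings without monochromatic `K_k`.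
-/

set_option autoImplicit false

namespace Pool.Agent.Results.MP_28724c_co.UnionsOfComparabilityGraphs

/-- `G` is the union of the comparability graphs of `t` strict partial orders on its vertices. -/
def UnionOfComparabilityGraphs {n : ℕ} (G : SimpleGraph (Fin n)) (t : ℕ) : Prop :=
  ∃ r : Fin t → Fin n → Fin n → Prop, (∀ i, IsStrictOrder (Fin n) (r i)) ∧
    ∀ u v, G.Adj u v ↔ ∃ i, r i u v ∨ r i v u

/-- More generally: every edge of `G` can be given one or several of `t` labels, and for each of its
labels `i` one direction (`r i u v`: the edge `u v` has the label `i` and is directed from `u` to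
`v`), such that two consecutive arcs `u → v → w` with the same label are closed by an edge `u w`
of `G` (of any label and direction). -/
def ClosedLabelling {n : ℕ} (G : SimpleGraph (Fin n)) (t : ℕ) : Prop :=
  ∃ r : Fin t → Fin n → Fin n → Prop, (∀ i u v, r i u v → ¬ r i v u) ∧
    (∀ i u v, r i u v → G.Adj u v) ∧ (∀ u v, G.Adj u v → ∃ i, r i u v ∨ r i v u) ∧
    ∀ i u v w, r i u v → r i v w → G.Adj u w

/-- The colouring of the edges of `K_n` with colour classes `G` and `Gᶜ` has no monochromatic
`K_k`. -/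
def NoMono {n : ℕ} (G : SimpleGraph (Fin n)) (k : ℕ) : Prop :=
  G.CliqueFree k ∧ Gᶜ.CliqueFree k

/-- The diagonal Ramsey number `R(k,k)`. -/
noncomputable def ramsey (k : ℕ) : ℕ :=
  sInf {n : ℕ | ∀ G : SimpleGraph (Fin n), ¬ NoMono G k}

theorem ramsey_eq (k : ℕ) : ramsey k = Pool.Agent.H818R2.Ram.R k k :=
  Pool.Agent.R734.CK.ramsey_eq k

theorem exists_small {k t : ℕ} (hk : 3 ≤ k) (ht : 2 * t ≤ k) :
    ∃ G : SimpleGraph (Fin (2 ^ t)), NoMono G k ∧ UnionOfComparabilityGraphs G t := by
  have h1 : 2 ^ t < Pool.Agent.H818R2.Ram.R k k := by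
    have h2 := Pool.Agent.H818R2.Ram.erdos_lower hk
    have h3 : (2 ^ t) ^ 2 ≤ 2 ^ k := by
      rw [← pow_mul, mul_comm]
      exact Nat.pow_le_pow_right (by norm_num) ht
    by_contra hcon
    push Not at hcon
    have h4 : (Pool.Agent.H818R2.Ram.R k k) ^ 2 ≤ (2 ^ t) ^ 2 := Nat.pow_le_pow_left hcon 2
    omega
  rw [← ramsey_eq] at h1
  have h2 : ¬ ∀ G : SimpleGraph (Fin (2 ^ t)), ¬ NoMono G k := fun h =>
    absurd (Nat.sInf_le (show 2 ^ t ∈ {n : ℕ | ∀ G : SimpleGraph (Fin n), ¬ NoMono G k} from h))
      (not_le.2 h1)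
  push Not at h2
  obtain ⟨G, hG⟩ := h2
  exact ⟨G, hG, Pool.Agent.H37Z.PO.all_union G le_rfl⟩

/-- **Main result.** -/
theorem result :
    -- (1) closed labellings with `t` labels, no red `K_{x+1}`, no blue `K_{y+1}`: finite bound
    (∀ (n t x y j : ℕ) (G : SimpleGraph (Fin n)), 1 ≤ t → 1 ≤ y → 2 ^ j ≤ x →
      ClosedLabelling G t → G.CliqueFree (x + 1) → Gᶜ.CliqueFree (y + 1) →
      n ≤ (3 * t * y * 2 ^ t) ^ j * (x / 2 ^ j + y).choose (x / 2 ^ j)) ∧
    -- (2) `log n ≤ 5 (t + log k) log (2 k / t)` for closed labellings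
    (∀ (n t k : ℕ) (G : SimpleGraph (Fin n)), 1 ≤ t → t ≤ k → 2 ≤ k →
      ClosedLabelling G t → NoMono G k →
      Real.log n ≤ 5 * (t + Real.log k) * Real.log (2 * k / t)) ∧
    -- (3) `log n ≤ 10 t log (2 k / t)` for unions of `t` comparability graphs; this is a special
    -- case of the previous class
    (∀ (n t : ℕ) (G : SimpleGraph (Fin n)), UnionOfComparabilityGraphs G t →
      ClosedLabelling G t) ∧
    (∀ (n t k : ℕ) (G : SimpleGraph (Fin n)), 1 ≤ t → t ≤ k → 2 ≤ k →
      UnionOfComparabilityGraphs G t → NoMono G k →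
      Real.log n ≤ 10 * t * Real.log (2 * k / t)) ∧
    -- (4) the growth rate for `t ≤ ε k` is at most `10 ε log (2 / ε)`
    (∀ ε : ℝ, 0 < ε → ε ≤ 1 / 2 → ∀ (n t k : ℕ) (G : SimpleGraph (Fin n)), 1 ≤ ε * k →
      (t : ℝ) ≤ ε * k → UnionOfComparabilityGraphs G t → NoMono G k →
      Real.log n / k ≤ 10 * ε * Real.log (2 / ε)) ∧
    -- (5) and at least `ε log 2`: there is such a colouring of `2 ^ t` vertices for all `2 t ≤ k`
    (∀ k t : ℕ, 3 ≤ k → 2 * t ≤ k → ∃ G : SimpleGraph (Fin (2 ^ t)),
      NoMono G k ∧ UnionOfComparabilityGraphs G t) ∧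
    -- (6) a colouring of at least `exp (θ k)` vertices without monochromatic `K_k` needs at least
    -- `θ k / (70 log (2 / θ))` comparability graphs
    (∀ θ : ℝ, 0 < θ → θ ≤ 1 → ∀ (k t n : ℕ) (G : SimpleGraph (Fin n)), 2 ≤ k → 1 ≤ t →
      UnionOfComparabilityGraphs G t → NoMono G k → Real.exp (θ * k) ≤ n →
      θ / (70 * Real.log (2 / θ)) * k ≤ t) ∧
    -- (7) every graph on at most `2 ^ t` vertices is the union of `t` comparability graphs
    (∀ (n t : ℕ) (G : SimpleGraph (Fin n)), n ≤ 2 ^ t → UnionOfComparabilityGraphs G t) ∧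
    -- (8) the red graph of every extremal colouring (on `R(k,k) - 1` vertices) is the union of
    -- `2 k` comparability graphs, but not of fewer than `k / 600`
    (∀ k n : ℕ, 4 ≤ k → n + 1 = ramsey k → ∀ G : SimpleGraph (Fin n), NoMono G k →
      UnionOfComparabilityGraphs G (2 * k) ∧
      ∀ t : ℕ, UnionOfComparabilityGraphs G t → k ≤ 600 * t) := by
  refine ⟨?_, ?_, ?_, ?_, ?_, ?_, ?_, ?_, ?_⟩
  · intro n t x y j G ht hy hj hG h1 h2
    exact Pool.Agent.H37Z.PO.cupper G ht hy hG h1 h2 hj
  · intro n t k G ht htk hk hG hN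
    exact Pool.Agent.H37Z.PO.closed_log ht htk hk G hG hN.1 hN.2
  · intro n t G hG
    exact Pool.Agent.H37Z.PO.ComparabilityUnion.closed hG
  · intro n t k G ht htk hk hG hN
    exact Pool.Agent.H37Z.PO.union_log ht htk hk G hG hN.1 hN.2
  · intro ε h1 h2 n t k G h3 h4 hG hN
    have hk0 : (0:ℝ) < k := by
      rcases Nat.eq_zero_or_pos k with rfl | h
      · norm_num at h3
      · exact_mod_cast h
    rw [div_le_iff₀ hk0]
    exact Pool.Agent.H37Z.PO.growth h1 h2 h3 h4 G hG hN.1 hN.2
  · intro k t hk ht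
    exact exists_small hk ht
  · intro θ h1 h2 k t n G hk ht hG hN hn
    exact Pool.Agent.H37Z.PO.many_orders θ h1 h2 k t n hk G hG hN.1 hN.2 hn ht
  · intro n t G hn
    exact Pool.Agent.H37Z.PO.all_union G hn
  · intro k n hk hn G hG
    rw [ramsey_eq] at hn
    constructor
    · have h4 : Pool.Agent.H818R2.Ram.R k k ≤ 4 ^ k := by
        obtain ⟨a, rfl⟩ : ∃ a, k = a + 1 := ⟨k - 1, by omega⟩
        calc Pool.Agent.H818R2.Ram.R (a + 1) (a + 1) ≤ (a + a).choose a :=
              Pool.Agent.H818R2.Ram.R_succ_le_choose a a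
          _ ≤ 2 ^ (a + a) := Nat.choose_le_two_pow _ _
          _ = 4 ^ a := by rw [← two_mul, pow_mul]; norm_num
          _ ≤ 4 ^ (a + 1) := Nat.pow_le_pow_right (by norm_num) (by omega)
      have h5 : n ≤ 2 ^ (2 * k) := by
        rw [pow_mul]
        norm_num
        omega
      exact Pool.Agent.H37Z.PO.all_union G h5
    · intro t ht
      have hE := Pool.Agent.H818R2.Ram.erdos_lower (k := k) (by omega)
      rw [← hn] at hE
      have h2k : k ^ 2 ≤ 2 ^ k := Pool.Agent.R734.CK.sq_le_two_pow k hk
      have hkn : k ≤ n := by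
        by_contra hcon
        push Not at hcon
        have : (n + 1) ^ 2 ≤ k ^ 2 := Nat.pow_le_pow_left (by omega) 2
        omega
      rcases Nat.eq_zero_or_pos t with rfl | ht1
      · exfalso
        obtain ⟨r, _, hr⟩ := ht
        have hcard : k ≤ (Finset.univ : Finset (Fin n)).card := by
          rw [Finset.card_univ, Fintype.card_fin]
          exact hkn
        obtain ⟨S, -, hS⟩ := Finset.exists_subset_card_eq hcard
        refine hG.2 S ⟨?_, hS⟩
        intro x _ y _ hxy
        rw [SimpleGraph.compl_adj]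
        refine ⟨hxy, fun hadj => ?_⟩
        obtain ⟨i, _⟩ := (hr x y).1 hadj
        exact i.elim0
      · have hn1 : 4 ≤ n := by omega
        have hn0 : (0 : ℝ) < n := by
          have : 0 < n := by omega
          exact_mod_cast this
        have hk4 : (4 : ℝ) ≤ k := by exact_mod_cast hk
        have h3 := Pool.Agent.H37Z.PO.many_orders (1 / 4) (by norm_num) (by norm_num) k t n
          (by omega) G ht hG.1 hG.2 (by
          rw [← Real.le_log_iff_exp_le hn0]
          have hE' : (2 : ℝ) ^ k ≤ (5 / 4 * n) ^ 2 := by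
            have h3 : (2 : ℝ) ^ k < ((n : ℝ) + 1) ^ 2 := by exact_mod_cast hE
            have h4 : (4 : ℝ) ≤ n := by exact_mod_cast hn1
            have h5 : (n : ℝ) + 1 ≤ 5 / 4 * n := by linarith
            exact h3.le.trans (pow_le_pow_left₀ (by positivity) h5 2)
          have h5 := Real.log_le_log (by positivity) hE'
          rw [Real.log_pow, Real.log_pow, Real.log_mul (by norm_num) hn0.ne'] at h5
          push_cast at h5
          have h6 := Real.log_two_gt_d9
          have h8 : Real.log (5 / 4) ≤ 5 / 4 - 1 := Real.log_le_sub_one_of_pos (by norm_num)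
          nlinarith) ht1
        have e1 : Real.log (2 / (1 / 4)) = 3 * Real.log 2 := by
          rw [show (2 : ℝ) / (1 / 4) = 2 ^ 3 by norm_num, Real.log_pow]
          norm_num
        rw [e1] at h3
        have h7 := Real.log_two_lt_d9
        have h6 := Real.log_two_gt_d9
        have h9 : (1 : ℝ) / 600 ≤ 1 / 4 / (70 * (3 * Real.log 2)) := by
          rw [div_div, div_le_div_iff₀ (by norm_num) (by positivity)]
          linarith
        have h10 : (1 : ℝ) / 600 * k ≤ t :=
          le_trans (mul_le_mul_of_nonneg_right h9 (by positivity)) h3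
        have h11 : (k : ℝ) ≤ 600 * t := by linarith
        exact_mod_cast h11

end Pool.Agent.Results.MP_28724c_co.UnionsOfComparabilityGraphs
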